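import Pool.Agent.Helper24.LD.Defs

/-!
P7 of the LD project: linear distance from P5, P6a, P7a.
-/

set_option autoImplicit false

namespace Pool.Agent.Helper49.LD

open Finset Pool.Agent.Helper24.LD

theorem TG_mono {w c n m : ℕ} {d d' : ℝ} (h : TG w c n m d) (hd : d' ≤ d) : TG w c n m d' := by
  obtain ⟨I, h1, h2, h3⟩ := h
  exact ⟨I, h1, h2, fun S hS hc => h3 S hS (hc.trans_le hd)⟩

theorem geom_lt (g : ℕ) : ∑ s ∈ Icc 1 g, ((1 : ℝ) / 4) ^ s = 1 / 3 - 1 / 3 * (1 / 4) ^ g := by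
  induction g with
  | zero => simp
  | succ g ih =>
    rw [Finset.sum_Icc_succ_top (by omega), ih, pow_succ]
    ring

theorem exists_t (w : ℕ) (R : ℝ) (hw : 3 ≤ w) (hR : R < ((w : ℝ) - 2) / (w + 1)) :
    ∃ t : ℕ, 1 ≤ t ∧ 3 * (t : ℝ) < (1 - R) * (t * (w + 1) - 3) := by
  have hw1 : (0 : ℝ) < w + 1 := by positivity
  have h1 : R * (w + 1) < w - 2 := by
    rwa [lt_div_iff₀ hw1] at hR
  have hpos : 0 < (1 - R) * (w + 1) - 3 := by nlinarith
  obtain ⟨t, ht⟩ := exists_nat_gt (3 * (1 - R) / ((1 - R) * (w + 1) - 3))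
  refine ⟨t + 1, by omega, ?_⟩
  have h2 : 3 * (1 - R) < t * ((1 - R) * (w + 1) - 3) := by
    rwa [div_lt_iff₀ hpos] at ht
  push_cast
  nlinarith

theorem p7 (h5 : S_P5) (h6 : S_P6a) (h7 : S_P7a) : S_P7 := by
  intro w R hw hR
  obtain ⟨t, ht1, ht⟩ := exists_t w R hw hR
  obtain ⟨u, rfl⟩ : ∃ u, w = u + 2 := ⟨w - 2, by omega⟩
  have hu : 1 ≤ u := by omega
  obtain ⟨k, rfl⟩ : ∃ k, t = k + 1 := ⟨t - 1, by omega⟩
  -- parameters
  set W : ℕ := (k + 1) * u with hW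
  have hW1 : 1 ≤ W := Nat.mul_pos (by omega) hu
  set c : ℕ := W + 3 * k with hc
  have hc1 : 1 ≤ c := by omega
  have hcR : (c : ℝ) = ((k + 1 : ℕ) : ℝ) * (((u + 2 : ℕ) : ℝ) + 1) - 3 := by
    rw [hc, hW]; push_cast; ring
  have hgap : 0 < (1 - R) * c - 3 * ((k + 1 : ℕ) : ℝ) := by
    rw [hcR]; linarith
  have hcpos : (0 : ℝ) < c := by exact_mod_cast hc1
  have hWpos : (0 : ℝ) < W := by exact_mod_cast hW1
  -- n large
  obtain ⟨n₁, hn₁⟩ := exists_nat_gt ((c : ℝ) * c / ((1 - R) * c - 3 * ((k + 1 : ℕ) : ℝ)))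
  refine ⟨1 / (2 * c * 1200000 * W ^ 2), by positivity, n₁ + 2 * c, ?_⟩
  intro n hn
  set M' : ℕ := n / c with hM'
  set e : ℕ := n % c with he
  have hdm : c * M' + e = n := Nat.div_add_mod n c
  have hec : e < c := Nat.mod_lt _ (by omega)
  have hM'1 : 1 ≤ M' := by
    rw [hM']
    exact (Nat.one_le_div_iff (by omega)).2 (by omega)
  set N : ℕ := M' * W with hN
  set M : ℕ := 3 * M' with hM
  have hN1 : 0 < N := Nat.mul_pos (by omega) (by omega)
  set g : ℕ := N / (1200000 * W ^ 3) with hg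
  have hgN : g ≤ N := Nat.div_le_self _ _
  have hgmul : 1200000 * W ^ 3 * g ≤ N := Nat.mul_div_le _ _
  have hgM : g ≤ M' := by
    by_contra hcon
    push Not at hcon
    have h1 : M' * W < g * W := Nat.mul_lt_mul_of_pos_right hcon (by omega)
    have h2 : g * W ≤ 1200000 * W ^ 3 * g := by
      have : 1 ≤ W ^ 2 := Nat.one_le_pow _ _ (by omega)
      calc g * W ≤ g * W * (1200000 * W ^ 2) := Nat.le_mul_of_pos_right _ (by omega)
        _ = 1200000 * W ^ 3 * g := by ring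
    omega
  have hNM : N * 3 = M * W := by rw [hN, hM]; ring
  obtain ⟨σ, hσ⟩ := h5 N 3 M W g hNM (by norm_num) (by omega) hN1 hgN
  have hsum : ∑ s ∈ Icc 1 g, ((badSets σ s).card : ℝ) < 1 := by
    calc ∑ s ∈ Icc 1 g, ((badSets σ s).card : ℝ) ≤ _ := hσ
      _ ≤ ∑ s ∈ Icc 1 g, ((1 : ℝ) / 4) ^ s := by
        refine Finset.sum_le_sum fun s hs => ?_
        rw [Finset.mem_Icc] at hs
        exact h6 N M W s hNM hs.1 hW1 ((Nat.mul_le_mul_left _ hs.2).trans hgmul)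
      _ = 1 / 3 - 1 / 3 * (1 / 4) ^ g := geom_lt g
      _ < 1 := by
        have : (0 : ℝ) < (1 / 4) ^ g := by positivity
        linarith
  have hbad : ∀ s, 1 ≤ s → s < g + 1 → badSets σ s = ∅ := by
    intro s hs1 hs2
    by_contra hne
    have h1 : 1 ≤ (badSets σ s).card := Finset.card_pos.2 (Finset.nonempty_iff_ne_empty.2 hne)
    have h2 : ((badSets σ s).card : ℝ) ≤ ∑ s ∈ Icc 1 g, ((badSets σ s).card : ℝ) :=
      Finset.single_le_sum (f := fun s => ((badSets σ s).card : ℝ)) (fun i _ => Nat.cast_nonneg _)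
        (Finset.mem_Icc.2 ⟨hs1, by omega⟩)
    have h3 : (1 : ℝ) ≤ (badSets σ s).card := by exact_mod_cast h1
    linarith
  have hTG := h7 N M (k + 1) u (g + 1) σ (by omega) hbad e
  have hcol : N + M * (k + 1 - 1) + e = n := by
    have : N + M * k = c * M' := by rw [hN, hM, hc]; ring
    rw [Nat.add_sub_cancel, this, hdm]
  rw [hcol] at hTG
  refine ⟨M * (k + 1) + e, ?_, TG_mono hTG ?_⟩
  · -- number of rows
    have hnR : (c : ℝ) * M' + e = n := by exact_mod_cast hdm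
    have heR : (e : ℝ) < c := by exact_mod_cast hec
    have hM'R : (c : ℝ) * M' ≤ n := by
      have : (0 : ℝ) ≤ e := Nat.cast_nonneg _
      linarith
    have hnbig : (c : ℝ) * c < n * ((1 - R) * c - 3 * ((k + 1 : ℕ) : ℝ)) := by
      rw [div_lt_iff₀ hgap] at hn₁
      have hn' : (n₁ : ℝ) ≤ n := by exact_mod_cast (by omega : n₁ ≤ n)
      calc (c : ℝ) * c < n₁ * ((1 - R) * c - 3 * ((k + 1 : ℕ) : ℝ)) := hn₁
        _ ≤ _ := mul_le_mul_of_nonneg_right hn' hgap.le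
    have hmR : ((M * (k + 1) + e : ℕ) : ℝ) = 3 * ((k + 1 : ℕ) : ℝ) * M' + e := by
      rw [hM]; push_cast; ring
    rw [hmR]
    have hk0 : (0 : ℝ) ≤ 3 * ((k + 1 : ℕ) : ℝ) := by positivity
    have h1 : c * (3 * ((k + 1 : ℕ) : ℝ) * M' + e) ≤ c * ((1 - R) * n) := by
      have h2 : 3 * ((k + 1 : ℕ) : ℝ) * ((c : ℝ) * M') ≤ 3 * ((k + 1 : ℕ) : ℝ) * n :=
        mul_le_mul_of_nonneg_left hM'R hk0
      have h3 : (c : ℝ) * e ≤ c * c := mul_le_mul_of_nonneg_left heR.le hcpos.le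
      nlinarith
    exact le_of_mul_le_mul_left h1 hcpos
  · -- distance
    have hn2c : (2 : ℝ) * c ≤ n := by exact_mod_cast (by omega : 2 * c ≤ n)
    have hnR : (c : ℝ) * M' + e = n := by exact_mod_cast hdm
    have heR : (e : ℝ) < c := by exact_mod_cast hec
    have hM'2 : (n : ℝ) ≤ 2 * c * M' := by nlinarith
    have hlt : N < 1200000 * W ^ 3 * (g + 1) := Nat.lt_mul_div_succ N (by positivity)
    have hltR : (M' : ℝ) * W < 1200000 * W ^ 3 * ((g + 1 : ℕ) : ℝ) := by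
      have := hlt
      rw [hN] at this
      exact_mod_cast this
    have h1 : (M' : ℝ) < 1200000 * W ^ 2 * ((g + 1 : ℕ) : ℝ) := by
      have : (M' : ℝ) * W < (1200000 * W ^ 2 * ((g + 1 : ℕ) : ℝ)) * W := by
        calc (M' : ℝ) * W < 1200000 * W ^ 3 * ((g + 1 : ℕ) : ℝ) := hltR
          _ = _ := by ring
      exact lt_of_mul_lt_mul_right this hWpos.le
    rw [div_mul_eq_mul_div, one_mul, div_le_iff₀ (by positivity)]
    calc (n : ℝ) ≤ 2 * c * M' := hM'2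
      _ ≤ 2 * c * (1200000 * W ^ 2 * ((g + 1 : ℕ) : ℝ)) :=
        mul_le_mul_of_nonneg_left h1.le (by positivity)
      _ = _ := by ring

end Pool.Agent.Helper49.LD
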